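import Pool.Agent.helper64.QF.Spec

/-!
# Project pq: (MP_b9b9c0_an), module UPB (helper46): the upper bound
-/

set_option autoImplicit false

namespace Pool.Agent.helper64.QF

open Metric MeasureTheory Set Filter Topology
open Pool.Agent.helper37.PR

theorem UPB (hPF2 : PF2_stmt) (hSUP : SUP_stmt) (hINT : INT_stmt) : UPB_stmt := by
  intro n A m κ C hC f hf U V
  obtain ⟨han, h0, hd, h, v, hH, hL, hT⟩ := hf
  obtain ⟨-, hP⟩ := hPF2 n A m κ C hC h v f hH hL han h0 hd
    (fun z hz => hT.tendsto_at hz) U V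
  obtain ⟨-, hint, -⟩ := hINT n A m κ C hC U V
  rw [hP, norm_neg]
  refine norm_integral_le_of_norm_le hint ?_
  have hpos : ∀ x : E n, 0 ≤ qA A x := fun x =>
    le_trans (mul_nonneg hC.m0.le (sq_nonneg _)) (hC.low x)
  have h1 : ∀ᵐ t : ℝ ∂(volume.restrict (Ioi (0 : ℝ))), 0 ≤ t → IsCara A (fun z => h z t) :=
    ae_restrict_of_ae hH.cara
  filter_upwards [h1, ae_restrict_mem measurableSet_Ioi] with t ht1 ht2
  exact hSUP n A (fun z => h z t) (ht1 (le_of_lt ht2)) hpos (fw A U t) (dual A V t)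

end Pool.Agent.helper64.QF
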